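import Pool.Agent.H65.CF.T6
import Pool.Agent.H51.CN.PZ2

/-!
# The row NRQ: the roots of the principal form
-/

set_option autoImplicit false

open MeasureTheory Set Filter NumberField
open scoped Real nonZeroDivisors

namespace Pool.Agent.H16.CFH

open Pool.Agent.H31.CN Pool.Agent.H65.AD Pool.Agent.H91.CF Pool.Agent.H65.CF
open Pool.Agent.H51.CN (RT nrt_eq nrt_chi)

theorem nrt_le_two (p : ℕ) (hp : p.Prime) (Δ : ℤ) : nrt p 1 0 Δ ≤ 2 := by
  classical
  have : Fact p.Prime := ⟨hp⟩
  rw [nrt_eq p hp.ne_zero]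
  by_cases hne : Nonempty (RT p 1 0 Δ)
  · obtain ⟨x0⟩ := hne
    have h2 : Nat.card Bool = 2 := by simp
    rw [← h2]
    refine Nat.card_le_card_of_injective (fun x : RT p 1 0 Δ => decide (x.1 = x0.1)) ?_
    have hsq : ∀ x y : RT p 1 0 Δ, x.1 = y.1 ∨ x.1 = -y.1 := by
      intro x y
      apply sq_eq_sq_iff_eq_or_eq_neg.mp
      have hx := x.2
      have hy := y.2
      push_cast at hx hy
      linear_combination hx - hy
    intro x y hxy
    have hxy' : (x.1 = x0.1) ↔ (y.1 = x0.1) := by
      exact decide_eq_decide.mp hxy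
    by_cases hx : x.1 = x0.1
    · exact Subtype.ext (hx.trans (hxy'.mp hx).symm)
    · have hy : ¬ y.1 = x0.1 := fun h => hx (hxy'.mpr h)
      exact Subtype.ext (((hsq x x0).resolve_left hx).trans ((hsq y x0).resolve_left hy).symm)
  · rw [not_nonempty_iff] at hne
    rw [Nat.card_of_isEmpty]
    exact Nat.zero_le _

theorem nrt_four (p : ℕ) (hp : p.Prime) (h2 : p ≠ 2) (c : ℤ) :
    nrt p 1 0 c = nrt p 1 0 (4 * c) := by
  have : Fact p.Prime := ⟨hp⟩
  have hp2 : (2 : ZMod p) ≠ 0 := by
    intro h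
    have h5 : ((2 : ℕ) : ZMod p) = 0 := by exact_mod_cast h
    rw [ZMod.natCast_eq_zero_iff] at h5
    exact h2 ((Nat.prime_dvd_prime_iff_eq hp Nat.prime_two).1 h5)
  rw [nrt_eq p hp.ne_zero, nrt_eq p hp.ne_zero]
  refine Nat.card_congr
    { toFun := fun x => ⟨2 * x.1, ?_⟩
      invFun := fun y => ⟨y.1 / 2, ?_⟩
      left_inv := fun x => ?_
      right_inv := fun y => ?_ }
  · have := x.2
    push_cast at this ⊢
    linear_combination 4 * this
  · have := y.2
    push_cast at this ⊢
    field_simp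
    linear_combination this
  · refine Subtype.ext ?_
    simp only
    field_simp
  · refine Subtype.ext ?_
    simp only
    field_simp

theorem pf_NRQ : T_NRQ := by
  intro D p hD hp
  have hch : p ≠ 2 → ch p D = chi p D := by
    intro h2
    unfold ch chi
    rw [if_neg h2, if_neg h2]
  refine ⟨?_, ?_, hch⟩
  · rcases hD with hD | hD
    · have hQ : Q1 D = (1, 0, (D : ℤ) / 4) := by
        unfold Q1
        rw [if_neg (by omega)]
      rw [hQ]
      by_cases h2 : p = 2
      · subst h2
        have h3 : nrt 2 1 0 ((D : ℤ) / 4) = 1 := by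
          unfold nrt
          rw [Finset.card_filter, Finset.sum_range_succ, Finset.sum_range_one]
          push_cast
          by_cases h4 : (2 : ℤ) ∣ (D : ℤ) / 4
          · rw [if_pos (by omega), if_neg (by omega)]
          · rw [if_neg (by omega), if_pos (by omega)]
        have h4 : ch 2 D = 0 := by
          unfold ch
          rw [if_pos rfl, if_neg (by omega), if_neg (by omega)]
        change ((nrt 2 1 0 ((D : ℤ) / 4) : ℕ) : ℤ) = 1 + ch 2 D
        rw [h3, h4]
        norm_num
      · have h3 : 4 * ((D : ℤ) / 4) = D := by omega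
        change ((nrt p 1 0 ((D : ℤ) / 4) : ℕ) : ℤ) = 1 + ch p D
        rw [nrt_four p hp h2, h3]
        unfold ch
        rw [if_neg h2]
        ring
    · have hQ : Q1 D = (1, 1, ((D : ℤ) + 1) / 4) := by
        unfold Q1
        rw [if_pos (by omega)]
      rw [hQ]
      change ((nrt p 1 1 (((D : ℤ) + 1) / 4) : ℕ) : ℤ) = 1 + ch p D
      have h3 : 4 * (((D : ℤ) + 1) / 4) - 1 = D := by omega
      have h4 := nrt_chi p hp (((D : ℤ) + 1) / 4)
      rw [h3] at h4
      have h5 : ((nrt p 1 1 (((D : ℤ) + 1) / 4) : ℕ) : ℤ) = 1 + chi p D := by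
        exact_mod_cast h4
      rw [h5]
      by_cases h2 : p = 2
      · subst h2
        unfold ch chi
        rw [if_pos rfl, if_pos rfl]
        by_cases h7 : (D : ℤ) % 8 = 7
        · rw [if_pos h7, if_pos h7]
        · rw [if_neg h7, if_neg h7, if_pos (by omega)]
      · rw [hch h2]
  · by_cases h2 : p = 2
    · subst h2
      unfold ch
      rw [if_pos rfl]
      split_ifs <;> simp
    · have h3 := nrt_le_two p hp D
      have h4 : ch p D = (nrt p 1 0 D : ℤ) - 1 := by
        unfold ch
        rw [if_neg h2]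
      rw [h4]
      have h5 : nrt p 1 0 D = 0 ∨ nrt p 1 0 D = 1 ∨ nrt p 1 0 D = 2 := by omega
      rcases h5 with h5 | h5 | h5 <;> rw [h5] <;> simp

end Pool.Agent.H16.CFH
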