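import Pool.Agent.H65.CF.T6
import Pool.Agent.H51.CN.PZ2
import Pool.Agent.H19.ADM.ZEX

/-!
# The row ZCQ: the mollified value of the forms of the first moment
-/

set_option autoImplicit false

open MeasureTheory Set Filter NumberField
open scoped Real nonZeroDivisors

namespace Pool.Agent.H16.CFH

open Pool.Agent.H31.CN Pool.Agent.H65.AD Pool.Agent.H91.CF Pool.Agent.H65.CF
open Pool.Agent.H51.CN (nrt_sf nrt_le cm_zero)
open Pool.Agent.H19.ADM (sum_div_prod)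

/-! ### The conductor -/

theorem rd_mul (f : ℕ) : rd f * f1 f = f :=
  Nat.mul_div_cancel' (Nat.prod_primeFactors_dvd f)

theorem rd_pos (f : ℕ) : 0 < rd f :=
  Finset.prod_pos fun _ hp => (Nat.prime_of_mem_primeFactors hp).pos

theorem rd_le (f : ℕ) (hf : 0 < f) : rd f ≤ f :=
  Nat.le_of_dvd hf (Nat.prod_primeFactors_dvd f)

theorem rd_dvd_N {N f : ℕ} (hN : Squarefree N) (hfN : ∀ p, p.Prime → p ∣ f → p ∣ N) :
    rd f ∣ N := by
  rw [← Nat.prod_primeFactors_of_squarefree hN]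
  unfold rd
  refine Finset.prod_dvd_prod_of_subset _ _ _ fun p hp => ?_
  exact Nat.mem_primeFactors.mpr ⟨Nat.prime_of_mem_primeFactors hp,
    hfN p (Nat.prime_of_mem_primeFactors hp) (Nat.dvd_of_mem_primeFactors hp), hN.ne_zero⟩

theorem nf_dvd {N f : ℕ} (hN : Squarefree N) (hfN : ∀ p, p.Prime → p ∣ f → p ∣ N) :
    nf N f ∣ N := Nat.div_dvd_of_dvd (rd_dvd_N hN hfN)

/-! ### The forms -/

theorem q1_spec (D : ℕ) (hD : D % 4 = 0 ∨ D % 4 = 3) :
    (Q1 D).1 = 1 ∧ 4 * (Q1 D).2.2 - (Q1 D).2.1 ^ 2 = (D : ℤ) := by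
  unfold Q1
  rcases hD with hD | hD
  · rw [if_neg (by omega)]
    refine ⟨rfl, ?_⟩
    simp only
    have h : 4 * ((D : ℤ) / 4) = D := by omega
    rw [h]
    ring
  · rw [if_pos (by omega)]
    refine ⟨rfl, ?_⟩
    simp only
    have h : 4 * (((D : ℤ) + 1) / 4) = D + 1 := by omega
    rw [h]
    ring

theorem qs_val (f d j D : ℕ) (hD : D % 4 = 0 ∨ D % 4 = 3) (v : ℤ × ℤ) :
    val (Qs f d j D) v = val (Q1 D) ((d : ℤ) * v.1 + ((j : ℤ) * ((rd f / d : ℕ) : ℤ)) * v.2,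
      (0 : ℤ) * v.1 + ((f1 f : ℤ) * ((rd f / d : ℕ) : ℤ)) * v.2) := by
  obtain ⟨h1, -⟩ := q1_spec D hD
  unfold val Qs Qp val
  simp only [h1]
  ring

theorem qs_dsc (f d j D : ℕ) (hd : d ∣ rd f) (hD : D % 4 = 0 ∨ D % 4 = 3) :
    dsc (Qs f d j D) = (f : ℤ) ^ 2 * D := by
  obtain ⟨h1, h2⟩ := q1_spec D hD
  have h3 : (f : ℤ) = (d : ℤ) * ((rd f / d : ℕ) : ℤ) * (f1 f : ℤ) := by
    have h4 : d * (rd f / d) * f1 f = f := by
      rw [Nat.mul_div_cancel' hd, rd_mul]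
    exact_mod_cast h4.symm
  unfold dsc Qs Qp val
  simp only
  rw [h3]
  linear_combination ((d : ℤ) * ((rd f / d : ℕ) : ℤ) * (f1 f : ℤ)) ^ 2 * h2

theorem coprime_d {f d m : ℕ} (hd : d ∣ rd f) (hm : Nat.Coprime m f) : Nat.Coprime d m :=
  (hm.symm.coprime_dvd_left (hd.trans (Nat.prod_primeFactors_dvd f)))

theorem qs_coprime (f d j D m : ℕ) (hd : d ∣ rd f) (hm : Nat.Coprime m f) :
    IsCoprime (Qs f d j D).1 (m : ℤ) := by
  have h1 : IsCoprime (d : ℤ) (m : ℤ) := Nat.isCoprime_iff_coprime.mpr (coprime_d hd hm)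
  exact h1.pow_left

theorem nrt_qs (hPRM : T_PRM) (hNRQ : T_NRQ) (f d j D m : ℕ) (hd : d ∣ rd f)
    (hD : D % 4 = 0 ∨ D % 4 = 3) (hm : Squarefree m) (hmf : Nat.Coprime m f) :
    (nrt m (Qs f d j D).1 (Qs f d j D).2.1 (Qs f d j D).2.2 : ℝ) =
      ∏ p ∈ m.primeFactors, (1 + (ch p D : ℝ)) := by
  rw [nrt_sf m hm]
  push_cast
  have h4 : d * (rd f / d) * f1 f = f := by
    rw [Nat.mul_div_cancel' hd, rd_mul]
  have h5 : (d : ℤ) * ((f1 f : ℤ) * ((rd f / d : ℕ) : ℤ)) -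
      ((j : ℤ) * ((rd f / d : ℕ) : ℤ)) * 0 = (f : ℤ) := by
    have h6 : (f : ℤ) = (d : ℤ) * ((rd f / d : ℕ) : ℤ) * (f1 f : ℤ) := by
      exact_mod_cast h4.symm
    rw [h6]
    ring
  have h6 : IsCoprime (f : ℤ) (m : ℤ) := Nat.isCoprime_iff_coprime.mpr hmf.symm
  have h7 := (hPRM m (Q1 D) (Qs f d j D) d ((j : ℤ) * ((rd f / d : ℕ) : ℤ)) 0
    ((f1 f : ℤ) * ((rd f / d : ℕ) : ℤ)) hm (by rw [h5]; exact h6) (qs_val f d j D hD)).2
    (by rw [(q1_spec D hD).1]; exact isCoprime_one_left) (qs_coprime f d j D m hd hmf)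
  refine Finset.prod_congr rfl fun p hp => ?_
  rw [h7 p hp]
  have h8 := (hNRQ D p hD (Nat.prime_of_mem_primeFactors hp)).1
  have h9 : (Q1 D).1 = 1 := (q1_spec D hD).1
  rw [h9]
  have h10 : (((nrt p 1 (Q1 D).2.1 (Q1 D).2.2 : ℕ) : ℤ) : ℝ) = ((1 + ch p D : ℤ) : ℝ) := by
    rw [h8]
  push_cast at h10
  exact h10

/-! ### The value as a sum -/

theorem zc_eq (hPZF : T_PZF) (S : Finset ℕ) (c : ℕ → ℝ) (Q : QF) (hQ : 0 < Q.1)
    (hdQ : 0 < dsc Q) (hS : ∀ m ∈ S, Squarefree m ∧ IsCoprime Q.1 (m : ℤ)) :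
    Zc S c Q = ∑ m ∈ S, c m * ((1 / Real.sqrt m) * ∑ j ∈ (Finset.range m).filter
        (fun j : ℕ => (m : ℤ) ∣ Q.1 * (j : ℤ) ^ 2 + Q.2.1 * j + Q.2.2),
          zf (m * Q.1) (Q.2.1 + 2 * Q.1 * j) (dsc Q)) := by
  have h2 : ∀ v : ℤ × ℤ, (∑ m ∈ S, c m * Vk (val Q v /
      (m * Real.sqrt (dsc Q))) * nu m Q v) / Real.sqrt (val Q v) = ∑ m ∈ S, c m *
        (Vk (val Q v / (m * Real.sqrt (dsc Q))) * nu m Q v / Real.sqrt (val Q v)) := by
    intro v
    rw [Finset.sum_div]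
    refine Finset.sum_congr rfl fun m _ => ?_
    ring
  unfold Zc
  rw [tsum_congr h2, Summable.tsum_finsetSum]
  · refine Finset.sum_congr rfl fun m hm => ?_
    rw [tsum_mul_left, (hPZF Q m hQ hdQ (hS m hm).1 (hS m hm).2).2]
  · intro m hm
    exact (hPZF Q m hQ hdQ (hS m hm).1 (hS m hm).2).1.mul_left _

/-! ### Bounds -/

theorem ch_abs (hNRQ : T_NRQ) {D p : ℕ} (hD : D % 4 = 0 ∨ D % 4 = 3) (hp : p.Prime) :
    |((ch p D : ℤ) : ℝ)| ≤ 1 := by
  have h := (hNRQ D p hD hp).2.1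
  simp only [Finset.mem_insert, Finset.mem_singleton] at h
  rcases h with h | h | h <;> rw [h] <;> norm_num

theorem cdf_bd (hNRQ : T_NRQ) (P : Polynomial ℝ) (N f : ℕ) : ∃ K : ℝ, 0 < K ∧
    ∀ M : ℝ, 1 < M → ∀ D : ℕ, (D % 4 = 0 ∨ D % 4 = 3) →
    ∀ m ∈ SDf M N f, |CDf P M N f D m| ≤ K := by
  obtain ⟨K, hK⟩ := (isCompact_Icc (a := (0 : ℝ)) (b := 1)).exists_bound_of_continuousOn
    (f := fun t => P.eval t) P.continuous.continuousOn
  refine ⟨(∏ _p ∈ (nf N f).primeFactors, (2 : ℝ)) * (|K| + 1), by positivity,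
    fun M hM D hD m hm => ?_⟩
  rw [SDf, Finset.mem_filter, Finset.mem_Icc] at hm
  obtain ⟨⟨h2, _⟩, h3, h4, _⟩ := hm
  have h5 : Nat.gcd m N ∣ m := Nat.gcd_dvd_left _ _
  have h6 : 0 < Nat.gcd m N := Nat.gcd_pos_of_pos_left _ h2
  have h7 : 0 < m / Nat.gcd m N := Nat.div_pos (Nat.le_of_dvd h2 h5) h6
  rw [CDf, abs_mul]
  refine mul_le_mul ?_ ?_ (abs_nonneg _) (by positivity)
  · rw [anf, Finset.abs_prod]
    refine Finset.prod_le_prod (fun _ _ => abs_nonneg _) fun p hp => ?_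
    have hp1 := Nat.prime_of_mem_primeFactors hp
    have hp0 : (1 : ℝ) ≤ p := by exact_mod_cast hp1.one_lt.le
    split_ifs
    · norm_num
    · refine (abs_add_le _ _).trans ?_
      rw [abs_div, abs_one, abs_of_pos (by linarith : (0 : ℝ) < p)]
      have h8 : |((ch p D : ℤ) : ℝ)| / p ≤ 1 := by
        rw [div_le_one (by linarith)]
        exact (ch_abs hNRQ hD hp1).trans hp0
      linarith
  · unfold cm
    split_ifs
    · rw [abs_mul]
      have h8 : |mr (m / Nat.gcd m N)| ≤ 1 := by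
        unfold mr
        exact_mod_cast ArithmeticFunction.abs_moebius_le_one
      have h9 : (1 : ℝ) ≤ ((m / Nat.gcd m N : ℕ) : ℝ) := by exact_mod_cast h7
      have h10 : (0 : ℝ) < ((m / Nat.gcd m N : ℕ) : ℝ) := by linarith
      have hlM : 0 < Real.log M := Real.log_pos hM
      have h11 : Real.log (M / ((m / Nat.gcd m N : ℕ) : ℝ)) / Real.log M ∈ Icc (0 : ℝ) 1 := by
        constructor
        · refine div_nonneg (Real.log_nonneg ?_) hlM.le
          rw [le_div_iff₀ h10, one_mul]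
          exact h4
        · rw [div_le_one hlM]
          refine Real.log_le_log (by positivity) (div_le_self (by linarith) h9)
      have h12 := hK _ h11
      rw [Real.norm_eq_abs] at h12
      calc _ ≤ 1 * |K| := mul_le_mul h8 (h12.trans (le_abs_self _)) (abs_nonneg _) (by norm_num)
        _ ≤ |K| + 1 := by linarith
    · rw [abs_zero]
      positivity

theorem lim22 (K c : ℝ) (hc : 0 < c) : ∃ Y₀ : ℝ, ∀ Y : ℝ, Y₀ ≤ Y →
    K * Y ^ 22 * Real.exp (-(c * Y)) ≤ 1 := by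
  have h1 := (tendsto_rpow_mul_exp_neg_mul_atTop_nhds_zero 22 c hc).const_mul K
  rw [mul_zero] at h1
  obtain ⟨Y₀, hY₀⟩ := eventually_atTop.1 (h1.eventually (eventually_le_nhds
    (show (0 : ℝ) < 1 by norm_num)))
  refine ⟨Y₀, fun Y hY => ?_⟩
  have := hY₀ Y hY
  rw [show (22 : ℝ) = ((22 : ℕ) : ℝ) by norm_num, Real.rpow_natCast] at this
  rw [mul_assoc, ← neg_mul]
  exact this

/-! ### The main term -/

/-- the local factors -/
noncomputable def wnf (N f n : ℕ) (D : ℤ) : ℝ :=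
  ∏ p ∈ (nf N f).primeFactors, if p ∣ n then -((1 + (ch p D : ℝ)) / p) else
    1 + (ch p D : ℝ) / p

theorem anf_prod (N f n : ℕ) (hN : Squarefree (nf N f)) (hn : n ∣ nf N f) (Δ : ℤ) :
    anf N f n Δ * ((1 / (n : ℝ)) * ∏ p ∈ n.primeFactors, (1 + (ch p Δ : ℝ))) =
      wnf N f n Δ := by
  have hN0 : nf N f ≠ 0 := hN.ne_zero
  have hn1 : (n : ℝ) = ∏ p ∈ n.primeFactors, (p : ℝ) := by
    rw [← Nat.cast_prod, Nat.prod_primeFactors_of_squarefree (hN.squarefree_of_dvd hn)]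
  have hn0 : n ≠ 0 := (Nat.pos_of_dvd_of_pos hn (Nat.pos_of_ne_zero hN0)).ne'
  have h1 : (1 / (n : ℝ)) * ∏ p ∈ n.primeFactors, (1 + (ch p Δ : ℝ)) =
      ∏ p ∈ (nf N f).primeFactors, if p ∣ n then (1 + (ch p Δ : ℝ)) / p else 1 := by
    rw [hn1, one_div, ← Finset.prod_inv_distrib, ← Finset.prod_mul_distrib,
      ← Finset.prod_filter]
    refine Finset.prod_congr ?_ fun p _ => by rw [div_eq_inv_mul]
    ext p
    rw [Finset.mem_filter, Nat.mem_primeFactors, Nat.mem_primeFactors]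
    constructor
    · rintro ⟨h2, h3, _⟩
      exact ⟨⟨h2, h3.trans hn, hN0⟩, h3⟩
    · rintro ⟨⟨h2, _, _⟩, h3⟩
      exact ⟨h2, h3, hn0⟩
  rw [h1, anf, wnf, ← Finset.prod_mul_distrib]
  refine Finset.prod_congr rfl fun p _ => ?_
  by_cases h : p ∣ n
  · rw [if_pos h, if_pos h, if_pos h]
    ring
  · rw [if_neg h, if_neg h, if_neg h, mul_one]

theorem sum_wnf (hNRQ : T_NRQ) (N f D : ℕ) (hN : Squarefree (nf N f))
    (hD : D % 4 = 0 ∨ D % 4 = 3) :
    ∑ n ∈ (nf N f).divisors, wnf N f n D = ∏ p ∈ (nf N f).primeFactors, (1 - 1 / (p : ℝ)) := by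
  unfold wnf
  rw [sum_div_prod hN.ne_zero hN (fun p => -((1 + (ch p D : ℝ)) / p))
    (fun p => 1 + (ch p D : ℝ) / p)]
  · refine Finset.prod_congr rfl fun p hp => ?_
    ring
  · intro p hp
    have hpp := Nat.prime_of_mem_primeFactors hp
    have h1 : (2 : ℝ) ≤ p := by exact_mod_cast hpp.two_le
    have h2 := (abs_le.1 (ch_abs hNRQ hD hpp)).1
    have h3 : -(1 / 2) ≤ (ch p D : ℝ) / p := by
      rw [le_div_iff₀ (by linarith)]
      nlinarith
    linarith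

theorem wnf_bd (hNRQ : T_NRQ) (N f D n : ℕ) (hD : D % 4 = 0 ∨ D % 4 = 3) :
    |wnf N f n D| ≤ 2 ^ (nf N f).primeFactors.card := by
  unfold wnf
  rw [Finset.abs_prod, ← Finset.prod_const]
  refine Finset.prod_le_prod (fun p _ => abs_nonneg _) fun p hp => ?_
  have hpp := Nat.prime_of_mem_primeFactors hp
  have h1 : (2 : ℝ) ≤ p := by exact_mod_cast hpp.two_le
  have h2 := abs_le.1 (ch_abs hNRQ hD hpp)
  split_ifs
  · rw [abs_neg, abs_div, abs_of_pos (by linarith : (0 : ℝ) < p),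
      div_le_iff₀ (by linarith), abs_le]
    constructor <;> nlinarith
  · refine (abs_add_le _ _).trans ?_
    rw [abs_one, abs_div, abs_of_pos (by linarith : (0 : ℝ) < p)]
    have h3 : |((ch p D : ℤ) : ℝ)| / p ≤ 1 := by
      rw [div_le_one (by linarith)]
      exact (ch_abs hNRQ hD hpp).trans (by linarith)
    linarith

theorem main_alg (hRAR : T_RAR) (P : Polynomial ℝ) (M : ℝ) (N f D d : ℕ)
    (hN : Squarefree N) (hf : 0 < f) (hfN : ∀ p, p.Prime → p ∣ f → p ∣ N)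
    (hD0 : 0 < D) (hd : 0 < d) :
    ∑ m ∈ SDf M N f, CDf P M N f D m * ((∏ p ∈ m.primeFactors, (1 + (ch p D : ℝ))) /
        ((m : ℝ) * d) * (Real.log ((f : ℝ) * Real.sqrt D / (m * (d : ℝ) ^ 2)) + c0)) =
      1 / (d : ℝ) * ((∑ n ∈ (nf N f).divisors, wnf N f n D) *
        ((Real.log (Real.sqrt D) + (Real.log f - 2 * Real.log d + c0)) * E0 P M N D -
          E1 P M N D) - (∑ n ∈ (nf N f).divisors, wnf N f n D * Real.log n) * E0 P M N D) := by
  have hnN := nf_dvd hN hfN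
  have hnsq : Squarefree (nf N f) := hN.squarefree_of_dvd hnN
  have hDr : (0 : ℝ) < D := by exact_mod_cast hD0
  have hsD : 0 < Real.sqrt D := Real.sqrt_pos.2 hDr
  have hfr : (0 : ℝ) < f := by exact_mod_cast hf
  have hdr : (0 : ℝ) < d := by exact_mod_cast hd
  rw [hRAR P M N f D (fun m => (∏ p ∈ m.primeFactors, (1 + (ch p D : ℝ))) /
        ((m : ℝ) * d) * (Real.log ((f : ℝ) * Real.sqrt D / (m * (d : ℝ) ^ 2)) + c0)) hN hf hfN]
  have h1 : ∀ m ∈ Finset.Icc 1 ⌊M⌋₊, ∑ n ∈ (nf N f).divisors, anf N f n D * cm P M N m *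
      ((∏ p ∈ (n * m).primeFactors, (1 + (ch p D : ℝ))) / (((n * m : ℕ) : ℝ) * d) *
        (Real.log ((f : ℝ) * Real.sqrt D / (((n * m : ℕ) : ℝ) * (d : ℝ) ^ 2)) + c0)) =
      1 / (d : ℝ) * ((∑ n ∈ (nf N f).divisors, wnf N f n D) *
        ((Real.log (Real.sqrt D) + (Real.log f - 2 * Real.log d + c0)) *
          (cm P M N m / m * ∏ p ∈ m.primeFactors, (1 + (ch p D : ℝ))) -
          cm P M N m / m * (∏ p ∈ m.primeFactors, (1 + (ch p D : ℝ))) * Real.log m) -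
        (∑ n ∈ (nf N f).divisors, wnf N f n D * Real.log n) *
          (cm P M N m / m * ∏ p ∈ m.primeFactors, (1 + (ch p D : ℝ)))) := by
    intro m hm
    by_cases h : Squarefree m ∧ m.Coprime N
    · obtain ⟨h1, h2⟩ := h
      have h7 : 0 < m := (Finset.mem_Icc.1 hm).1
      have h13 : (0 : ℝ) < m := by exact_mod_cast h7
      rw [Finset.sum_mul, Finset.sum_mul, ← Finset.sum_sub_distrib, Finset.mul_sum]
      refine Finset.sum_congr rfl fun n hn => ?_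
      have h3 : n ∣ nf N f := (Nat.mem_divisors.1 hn).1
      have h4 : 0 < n := Nat.pos_of_mem_divisors hn
      have h12 : (0 : ℝ) < n := by exact_mod_cast h4
      have h5 : n.Coprime m := (h2.symm).coprime_dvd_left (h3.trans hnN)
      rw [← anf_prod N f n hnsq h3 D, h5.primeFactors_mul,
        Finset.prod_union h5.disjoint_primeFactors]
      have h14 : Real.log ((f : ℝ) * Real.sqrt D / (((n * m : ℕ) : ℝ) * (d : ℝ) ^ 2)) =
          Real.log (Real.sqrt D) + (Real.log f - 2 * Real.log d) - Real.log n - Real.log m := by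
        push_cast
        rw [Real.log_div (by positivity) (by positivity), Real.log_mul hfr.ne' hsD.ne',
          Real.log_mul (by positivity) (by positivity), Real.log_mul h12.ne' h13.ne',
          Real.log_pow]
        push_cast
        ring
      rw [h14]
      push_cast
      field_simp
      ring
    · rw [cm_zero P M N m h]
      simp
  rw [Finset.sum_congr rfl h1, ← Finset.mul_sum, Finset.sum_sub_distrib, ← Finset.mul_sum,
    Finset.sum_sub_distrib, ← Finset.mul_sum, ← Finset.mul_sum]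
  rfl

/-! ### The error -/

theorem zf_ct' (hBAV : T_BAV) : ∃ C : ℝ, 0 < C ∧ ∀ (A B Δ : ℝ), 1 ≤ A → 1 ≤ Δ →
    |zf A B Δ - ct A Δ| ≤ C * (A + Δ) ^ 3 * Real.exp (-(Real.sqrt Δ / A)) := by
  obtain ⟨C, hC, h⟩ := hBAV
  refine ⟨C, hC, fun A B Δ hA hΔ => ?_⟩
  have h1 := h A Δ (B / (2 * A)) 1 hA hΔ le_rfl
  simp only [Finset.range_one, Finset.sum_singleton, Nat.cast_one, Nat.cast_zero,
    add_zero, mul_one, div_one, one_mul] at h1
  rwa [mul_div_cancel₀ _ (by positivity : (2 * A) ≠ 0)] at h1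

theorem pf_ZCQ (hPZF : T_PZF) (hPRM : T_PRM) (hNRQ : T_NRQ) (hRAR : T_RAR) (hBAV : T_BAV)
    (hVK : T_VK) (hVGR : T_VGR) : T_ZCQ := by
  clear hVK hVGR
  intro P N f θ η hN1 hN2 hN hf hfN hθ0 hθ1 hη
  obtain ⟨K, hK, hCD⟩ := cdf_bd hNRQ P N f
  obtain ⟨C, hC, hz⟩ := zf_ct' hBAV
  have hNr : (1 : ℝ) ≤ N := by exact_mod_cast hN1
  have hfr : (1 : ℝ) ≤ f := by exact_mod_cast hf
  have hnN := nf_dvd hN hfN
  have hnsq : Squarefree (nf N f) := hN.squarefree_of_dvd hnN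
  set c : ℝ := Real.sqrt η / (N * f) with hc
  have hc0 : 0 < c := div_pos (Real.sqrt_pos.2 hη) (by positivity)
  obtain ⟨Y₀, hY₀⟩ := lim22 ((N : ℝ) ^ 2 * K * C * ((f : ℝ) ^ 2 * (N + 1)) ^ 3) c hc0
  set B1 : ℝ := ((nf N f).divisors.card : ℝ) * (2 ^ (nf N f).primeFactors.card * Real.log N)
    with hB1
  have hlogf : 0 ≤ Real.log f := Real.log_nonneg hfr
  have hlogN : 0 ≤ Real.log N := Real.log_nonneg hNr
  have hB10 : 0 ≤ B1 := by positivity
  refine ⟨3 * Real.log f + |c0| + B1 + 1, max (max 2 (4 / η)) (max Y₀ 1 ^ 4), by positivity,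
    fun X hX D hD4 hD1 hD2 d hd j => ?_⟩
  have hX2 : 2 ≤ X := ((le_max_left _ _).trans (le_max_left _ _)).trans hX
  have hX3 : 4 / η ≤ X := ((le_max_right _ _).trans (le_max_left _ _)).trans hX
  have hX4 : max Y₀ 1 ^ 4 ≤ X := (le_max_right _ _).trans hX
  have hX0 : 0 < X := by linarith
  have hD0 : 0 < D := by
    have h1 : 4 ≤ η * X := by
      rw [div_le_iff₀ hη] at hX3
      linarith
    have h2 : (4 : ℝ) ≤ D := h1.trans hD1
    have h3 : 4 ≤ D := by exact_mod_cast h2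
    omega
  have hDr : (1 : ℝ) ≤ D := by exact_mod_cast hD0
  have hdr : d ∣ rd f := Nat.dvd_of_mem_divisors hd
  have hd0 : 0 < d := Nat.pos_of_mem_divisors hd
  have hdf : d ≤ f := (Nat.le_of_dvd (rd_pos f) hdr).trans (rd_le f hf)
  have hd1 : (1 : ℝ) ≤ d := by exact_mod_cast hd0
  have hdf' : (d : ℝ) ≤ f := by exact_mod_cast hdf
  set Y : ℝ := X ^ (1 / 4 : ℝ) with hY
  have hYpos : 0 < Y := Real.rpow_pos_of_pos hX0 _
  have hY4 : Y ^ 4 = X := by
    rw [hY, ← Real.rpow_natCast, ← Real.rpow_mul hX0.le]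
    norm_num
  have hYm : max Y₀ 1 ≤ Y := by
    by_contra h
    push Not at h
    have := pow_lt_pow_left₀ h hYpos.le (n := 4) (by norm_num)
    rw [hY4] at this
    linarith
  have hY0 : Y₀ ≤ Y := (le_max_left _ _).trans hYm
  have hY1 : 1 ≤ Y := (le_max_right _ _).trans hYm
  set M : ℝ := X ^ θ with hM
  have hM1 : 1 < M := Real.one_lt_rpow (by linarith) hθ0
  have hMY : M ≤ Y := Real.rpow_le_rpow_of_exponent_le (by linarith) hθ1.le
  set Q : QF := Qs f d j D with hQ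
  have hQ1 : Q.1 = (d : ℤ) ^ 2 := rfl
  have hQpos : 0 < Q.1 := by
    rw [hQ1]
    positivity
  have hdsc : dsc Q = (f : ℤ) ^ 2 * D := qs_dsc f d j D hdr hD4
  have hdQ : 0 < dsc Q := by
    rw [hdsc]
    positivity
  have hSsq : ∀ m ∈ SDf M N f, Squarefree m ∧ IsCoprime Q.1 (m : ℤ) := fun m hm =>
    ⟨(Finset.mem_filter.1 hm).2.1, qs_coprime f d j D m hdr (Finset.mem_filter.1 hm).2.2.2⟩
  have hzc := zc_eq hPZF (SDf M N f) (CDf P M N f D) Q hQpos hdQ hSsq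
  have hQr : (Q.1 : ℝ) = (d : ℝ) ^ 2 := by
    rw [hQ1]
    push_cast
    rfl
  have hdr' : (dsc Q : ℝ) = (f : ℝ) ^ 2 * D := by
    rw [hdsc]
    push_cast
    rfl
  have hmain := main_alg hRAR P M N f D d hN hf hfN hD0 hd0
  set mt : ℝ := ∑ m ∈ SDf M N f, CDf P M N f D m * ((∏ p ∈ m.primeFactors, (1 + (ch p D : ℝ))) /
        ((m : ℝ) * d) * (Real.log ((f : ℝ) * Real.sqrt D / (m * (d : ℝ) ^ 2)) + c0)) with hmt
  -- the error
  have herr : |Zc (SDf M N f) (CDf P M N f D) Q - mt| ≤ X ^ (-2 : ℝ) := by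
    rw [hzc, hmt, ← Finset.sum_sub_distrib]
    have hterm : ∀ m ∈ SDf M N f, |CDf P M N f D m * ((1 / Real.sqrt m) *
        ∑ j ∈ (Finset.range m).filter
          (fun j : ℕ => (m : ℤ) ∣ Q.1 * (j : ℤ) ^ 2 + Q.2.1 * j + Q.2.2),
            zf (m * Q.1) (Q.2.1 + 2 * Q.1 * j) (dsc Q)) -
        CDf P M N f D m * ((∏ p ∈ m.primeFactors, (1 + (ch p D : ℝ))) /
        ((m : ℝ) * d) * (Real.log ((f : ℝ) * Real.sqrt D / (m * (d : ℝ) ^ 2)) + c0))| ≤
        K * (N * Y * (C * ((f : ℝ) ^ 2 * (N + 1) * Y ^ 4) ^ 3 * Real.exp (-(c * Y)))) := by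
      intro m hm
      have hm0 := hm
      rw [SDf, Finset.mem_filter, Finset.mem_Icc] at hm
      obtain ⟨⟨h1, h2⟩, hmsq, _, hmf⟩ := hm
      have hmr : (1 : ℝ) ≤ m := by exact_mod_cast h1
      have hmr0 : (0 : ℝ) < m := by linarith
      have hmN : (m : ℝ) ≤ N * Y := by
        have h3 : (m : ℝ) ≤ N * (⌊M⌋₊ : ℝ) := by exact_mod_cast h2
        exact h3.trans (mul_le_mul_of_nonneg_left ((Nat.floor_le (by linarith)).trans hMY)
          (by linarith))
      rw [← mul_sub, abs_mul]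
      refine mul_le_mul (hCD M hM1 D hD4 m hm0) ?_ (abs_nonneg _) hK.le
      set T : Finset ℕ := (Finset.range m).filter
          (fun j : ℕ => (m : ℤ) ∣ Q.1 * (j : ℤ) ^ 2 + Q.2.1 * j + Q.2.2) with hT
      have hTc : (T.card : ℝ) = ∏ p ∈ m.primeFactors, (1 + (ch p D : ℝ)) :=
        nrt_qs hPRM hNRQ f d j D m hdr hD4 hmsq hmf
      have hct : (∏ p ∈ m.primeFactors, (1 + (ch p D : ℝ))) /
          ((m : ℝ) * d) * (Real.log ((f : ℝ) * Real.sqrt D / (m * (d : ℝ) ^ 2)) + c0) =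
          1 / Real.sqrt m * ∑ j ∈ T, ct (m * Q.1) (dsc Q) := by
        rw [Finset.sum_const, nsmul_eq_mul, hTc, ct, hQr, hdr']
        rw [Real.sqrt_mul (by positivity : (0 : ℝ) ≤ (f : ℝ) ^ 2), Real.sqrt_sq (by linarith),
          Real.sqrt_mul hmr0.le, Real.sqrt_sq (by linarith)]
        have h11 : 0 < Real.sqrt (m : ℝ) := Real.sqrt_pos.2 hmr0
        have h12 : Real.sqrt (m : ℝ) * Real.sqrt (m : ℝ) = m := Real.mul_self_sqrt hmr0.le
        generalize Real.log ((f : ℝ) * Real.sqrt D / (m * (d : ℝ) ^ 2)) + c0 = L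
        generalize ∏ p ∈ m.primeFactors, (1 + (ch p D : ℝ)) = W
        have h13 : 1 / Real.sqrt (m : ℝ) * (W * (L / (Real.sqrt (m : ℝ) * d))) =
            W * L / ((Real.sqrt (m : ℝ) * Real.sqrt (m : ℝ)) * d) := by
          field_simp
        rw [h13, h12]
        ring
      rw [hct, ← mul_sub, ← Finset.sum_sub_distrib, abs_mul]
      have h4 : |1 / Real.sqrt (m : ℝ)| ≤ 1 := by
        rw [abs_of_nonneg (by positivity)]
        exact div_le_one_of_le₀ (Real.one_le_sqrt.2 hmr) (Real.sqrt_nonneg _)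
      have hA1 : (1 : ℝ) ≤ m * (Q.1 : ℝ) := by
        rw [hQr]
        nlinarith [one_le_pow₀ hd1 (n := 2)]
      have hA2 : (m : ℝ) * (Q.1 : ℝ) ≤ N * Y * (f : ℝ) ^ 2 := by
        rw [hQr]
        have h5 : (d : ℝ) ^ 2 ≤ (f : ℝ) ^ 2 := by gcongr
        calc (m : ℝ) * (d : ℝ) ^ 2 ≤ N * Y * (d : ℝ) ^ 2 := by gcongr
          _ ≤ N * Y * (f : ℝ) ^ 2 := by gcongr
      have hΔ1 : (1 : ℝ) ≤ (dsc Q : ℝ) := by
        exact_mod_cast hdQ
      have h5 : Real.exp (-(Real.sqrt (dsc Q) / (m * (Q.1 : ℝ)))) ≤ Real.exp (-(c * Y)) := by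
        refine Real.exp_le_exp.2 (neg_le_neg ?_)
        have h6 : Real.sqrt η * Y ^ 2 ≤ Real.sqrt D := by
          have h7 : Real.sqrt η * Y ^ 2 = Real.sqrt (η * X) := by
            rw [Real.sqrt_mul hη.le, ← hY4, show Y ^ 4 = (Y ^ 2) ^ 2 by ring,
              Real.sqrt_sq (by positivity)]
          rw [h7]
          exact Real.sqrt_le_sqrt hD1
        rw [hdr', Real.sqrt_mul (by positivity : (0 : ℝ) ≤ (f : ℝ) ^ 2),
          Real.sqrt_sq (by linarith), le_div_iff₀ (by linarith)]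
        calc c * Y * (m * (Q.1 : ℝ)) ≤ c * Y * (N * Y * (f : ℝ) ^ 2) := by gcongr
          _ = f * (Real.sqrt η * Y ^ 2) := by
            rw [hc]
            field_simp
          _ ≤ f * Real.sqrt D := by gcongr
      have h6 : ∀ j : ℕ, |zf (m * Q.1) (Q.2.1 + 2 * Q.1 * j) (dsc Q) - ct (m * Q.1) (dsc Q)| ≤
          C * ((f : ℝ) ^ 2 * (N + 1) * Y ^ 4) ^ 3 * Real.exp (-(c * Y)) := by
        intro j
        refine (hz (m * Q.1) (Q.2.1 + 2 * Q.1 * j) (dsc Q) hA1 hΔ1).trans ?_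
        have h7 : (m : ℝ) * (Q.1 : ℝ) + (dsc Q : ℝ) ≤ (f : ℝ) ^ 2 * (N + 1) * Y ^ 4 := by
          have h8 : Y ≤ Y ^ 4 := le_self_pow₀ hY1 (by norm_num)
          have h9 : N * Y * (f : ℝ) ^ 2 ≤ N * Y ^ 4 * (f : ℝ) ^ 2 := by gcongr
          have h10 : (dsc Q : ℝ) ≤ (f : ℝ) ^ 2 * Y ^ 4 := by
            rw [hdr', hY4]
            gcongr
          calc (m : ℝ) * (Q.1 : ℝ) + (dsc Q : ℝ) ≤ N * Y ^ 4 * (f : ℝ) ^ 2 +
              (f : ℝ) ^ 2 * Y ^ 4 := add_le_add (hA2.trans h9) h10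
            _ = (f : ℝ) ^ 2 * (N + 1) * Y ^ 4 := by ring
        have h8 : 0 ≤ (m : ℝ) * (Q.1 : ℝ) + (dsc Q : ℝ) := by linarith
        gcongr
      have hTm : (T.card : ℝ) ≤ m := by
        exact_mod_cast (Finset.card_filter_le _ _).trans (Finset.card_range m).le
      have h7 : |∑ j ∈ T, (zf (m * Q.1) (Q.2.1 + 2 * Q.1 * j) (dsc Q) -
          ct (m * Q.1) (dsc Q))| ≤
          T.card * (C * ((f : ℝ) ^ 2 * (N + 1) * Y ^ 4) ^ 3 * Real.exp (-(c * Y))) := by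
        refine (Finset.abs_sum_le_sum_abs _ _).trans
          ((Finset.sum_le_sum fun j _ => h6 j).trans (le_of_eq ?_))
        rw [Finset.sum_const, nsmul_eq_mul]
      calc |1 / Real.sqrt (m : ℝ)| * |∑ j ∈ T, (zf (m * Q.1) (Q.2.1 + 2 * Q.1 * j) (dsc Q) -
          ct (m * Q.1) (dsc Q))|
          ≤ 1 * (T.card * (C * ((f : ℝ) ^ 2 * (N + 1) * Y ^ 4) ^ 3 * Real.exp (-(c * Y)))) :=
            mul_le_mul h4 h7 (abs_nonneg _) (by norm_num)
        _ = T.card * (C * ((f : ℝ) ^ 2 * (N + 1) * Y ^ 4) ^ 3 * Real.exp (-(c * Y))) :=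
          one_mul _
        _ ≤ N * Y * (C * ((f : ℝ) ^ 2 * (N + 1) * Y ^ 4) ^ 3 * Real.exp (-(c * Y))) :=
          mul_le_mul_of_nonneg_right (hTm.trans hmN) (by positivity)
    refine (Finset.abs_sum_le_sum_abs _ _).trans ((Finset.sum_le_sum hterm).trans ?_)
    rw [Finset.sum_const, nsmul_eq_mul]
    have hcard : ((SDf M N f).card : ℝ) ≤ N * Y := by
      have h3 : (SDf M N f).card ≤ N * ⌊M⌋₊ := by
        rw [SDf]
        exact (Finset.card_filter_le _ _).trans (by rw [Nat.card_Icc]; omega)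
      have h4 : ((SDf M N f).card : ℝ) ≤ N * (⌊M⌋₊ : ℝ) := by exact_mod_cast h3
      exact h4.trans (mul_le_mul_of_nonneg_left ((Nat.floor_le (by linarith)).trans hMY)
        (by linarith))
    have hfin := hY₀ Y hY0
    have hXi : X ^ (-2 : ℝ) = 1 / Y ^ 8 := by
      rw [Real.rpow_neg hX0.le, show (2 : ℝ) = ((2 : ℕ) : ℝ) by norm_num, Real.rpow_natCast,
        ← hY4, one_div]
      congr 1
      ring
    rw [hXi, le_div_iff₀ (by positivity)]
    calc ((SDf M N f).card : ℝ) * (K * (N * Y * (C * ((f : ℝ) ^ 2 * (N + 1) * Y ^ 4) ^ 3 *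
        Real.exp (-(c * Y))))) * Y ^ 8
        ≤ (N * Y) * (K * (N * Y * (C * ((f : ℝ) ^ 2 * (N + 1) * Y ^ 4) ^ 3 *
          Real.exp (-(c * Y))))) * Y ^ 8 := by gcongr
      _ = (N : ℝ) ^ 2 * K * C * ((f : ℝ) ^ 2 * (N + 1)) ^ 3 * Y ^ 22 *
          Real.exp (-(c * Y)) := by ring
      _ ≤ 1 := hfin
  -- the main term
  set G : ℝ := ∏ p ∈ (nf N f).primeFactors, (1 - 1 / (p : ℝ)) with hG
  have hsum : ∑ n ∈ (nf N f).divisors, wnf N f n D = G := sum_wnf hNRQ N f D hnsq hD4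
  rw [hsum] at hmain
  set vl : ℝ := ∑ n ∈ (nf N f).divisors, wnf N f n D * Real.log n with hvl
  have hvlb : |vl| ≤ B1 := by
    rw [hvl, hB1]
    refine (Finset.abs_sum_le_sum_abs _ _).trans ?_
    rw [← nsmul_eq_mul, ← Finset.sum_const]
    refine Finset.sum_le_sum fun n hn => ?_
    have hn1 : 1 ≤ n := Nat.pos_of_mem_divisors hn
    have hn1' : (1 : ℝ) ≤ n := by exact_mod_cast hn1
    have hnN' : n ≤ N := Nat.le_of_dvd (by omega) ((Nat.dvd_of_mem_divisors hn).trans hnN)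
    rw [abs_mul, abs_of_nonneg (Real.log_nonneg hn1')]
    exact mul_le_mul (wnf_bd hNRQ N f D n hD4)
      (Real.log_le_log (by linarith) (by exact_mod_cast hnN')) (Real.log_nonneg hn1')
      (by positivity)
  have hG0 : |G| ≤ 1 := by
    rw [hG, Finset.abs_prod]
    refine Finset.prod_le_one (fun _ _ => abs_nonneg _) fun p hp => ?_
    have hpp := Nat.prime_of_mem_primeFactors hp
    have h1 : (1 : ℝ) ≤ p := by exact_mod_cast hpp.one_lt.le
    have h2 : 0 ≤ 1 / (p : ℝ) := by positivity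
    have h3 : 1 / (p : ℝ) ≤ 1 := by
      rw [div_le_one (by linarith)]
      exact h1
    rw [abs_le]
    constructor <;> linarith
  have hlogd : 0 ≤ Real.log d := Real.log_nonneg hd1
  have hlogdf : Real.log d ≤ Real.log f := Real.log_le_log (by linarith) hdf'
  have hL : |Real.log f - 2 * Real.log d + c0| ≤ 3 * Real.log f + |c0| := by
    refine (abs_add_le _ _).trans ?_
    have h1 : |Real.log f - 2 * Real.log d| ≤ 3 * Real.log f := by
      rw [abs_le]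
      constructor <;> linarith
    linarith
  have h1 : Zc (SDf M N f) (CDf P M N f D) Q - 1 / (d : ℝ) * (G *
      (Real.log (Real.sqrt D) * E0 P M N D - E1 P M N D)) =
      (Zc (SDf M N f) (CDf P M N f D) Q - mt) +
        1 / (d : ℝ) * ((G * (Real.log f - 2 * Real.log d + c0) - vl) * E0 P M N D) := by
    rw [hmain]
    ring
  rw [h1]
  refine (abs_add_le _ _).trans ?_
  have h2 : |1 / (d : ℝ) * ((G * (Real.log f - 2 * Real.log d + c0) - vl) * E0 P M N D)| ≤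
      (3 * Real.log f + |c0| + B1 + 1) * |E0 P M N D| := by
    rw [abs_mul, abs_mul]
    have h3 : |1 / (d : ℝ)| ≤ 1 := by
      rw [abs_of_nonneg (by positivity)]
      exact div_le_one_of_le₀ hd1 (by linarith)
    have h4 : |G * (Real.log f - 2 * Real.log d + c0) - vl| ≤
        3 * Real.log f + |c0| + B1 + 1 := by
      refine (abs_sub _ _).trans ?_
      rw [abs_mul]
      have h5 : |G| * |Real.log f - 2 * Real.log d + c0| ≤ 1 * (3 * Real.log f + |c0|) :=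
        mul_le_mul hG0 hL (abs_nonneg _) (by norm_num)
      linarith
    calc |1 / (d : ℝ)| * (|G * (Real.log f - 2 * Real.log d + c0) - vl| * |E0 P M N D|)
        ≤ 1 * ((3 * Real.log f + |c0| + B1 + 1) * |E0 P M N D|) := by gcongr
      _ = _ := one_mul _
  linarith

end Pool.Agent.H16.CFH
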